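import Pool.Agent.Helper14.TK7.StD

/-! # Project TK (levels `3·7^n`): module ExA (the edge function of a solution of the relations)

Adapted from Helper2/TK/M_ExA.lean (the case of the prime five). -/

set_option autoImplicit false

namespace Pool.Agent.Helper52.TK7

open Pool.Agent.Helper14.TK7 Pool.Agent.Helper84.S7

private theorem ndm {a b : ℤ} (ha : ¬ (7 : ℤ) ∣ a) (hb : ¬ (7 : ℤ) ∣ b) : ¬ (7 : ℤ) ∣ a * b := by
  intro h
  rcases (Int.prime_ofNat_iff.2 (by norm_num : Nat.Prime 7)).dvd_or_dvd h with h | h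
  · exact ha h
  · exact hb h

private theorem cop {r : ℕ} {a : ℤ} (h : ¬ (7 : ℤ) ∣ a) : IsUnit ((a : ℤ) : ZMod (7 ^ r)) := by
  have h1 : IsCoprime a 7 := by
    have := (Int.prime_ofNat_iff.2 (by norm_num : Nat.Prime 7)).coprime_iff_not_dvd.2 h
    exact this.symm
  have h2 : IsCoprime a ((7 ^ r : ℕ) : ℤ) := by
    push_cast
    exact h1.pow_right
  exact (ZMod.coe_int_isUnit_iff_isCoprime a (7 ^ r)).2 h2.symm

private theorem den {r : ℕ} {a c : ℤ} (x : ZMod (7 ^ r)) (h : ¬ (7 : ℤ) ∣ a) :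
    IsUnit ((a : ZMod (7 ^ r)) + 7 * c * x) := by
  have : NeZero (7 ^ r) := ⟨pow_ne_zero _ (by norm_num)⟩
  have : (a : ZMod (7 ^ r)) + 7 * c * x = ((a + 7 * c * (x.val : ℤ) : ℤ) : ZMod (7 ^ r)) := by
    push_cast
    rw [ZMod.natCast_zmod_val]
  rw [this]
  apply cop
  intro h3
  exact h ((dvd_add_left (⟨c * (x.val : ℤ), by ring⟩ : (7 : ℤ) ∣ 7 * c * (x.val : ℤ))).1 h3)

private theorem res {a b c d : ℤ} (h : ¬ (7 : ℤ) ∣ a * d - 7 * (b * c)) :
    ¬ (7 : ℤ) ∣ a ∧ ¬ (7 : ℤ) ∣ d := by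
  constructor
  · rintro ⟨k, rfl⟩
    exact h ⟨k * d - b * c, by ring⟩
  · rintro ⟨k, rfl⟩
    exact h ⟨a * k - b * c, by ring⟩

/-- the matrix (a b; 7c d) has the coordinates (x, y) -/
private def Pt {r s : ℕ} (a b c d : ℤ) (x : ZMod (7 ^ r)) (y : ZMod (7 ^ s)) : Prop :=
  ¬ (7 : ℤ) ∣ a ∧ ¬ (7 : ℤ) ∣ d ∧ (b : ZMod (7 ^ r)) = x * a ∧ (c : ZMod (7 ^ s)) = y * d

private theorem pt_mk (r s : ℕ) {a b c d : ℤ} (ha : ¬ (7 : ℤ) ∣ a) (hd : ¬ (7 : ℤ) ∣ d) :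
    ∃ (x : ZMod (7 ^ r)) (y : ZMod (7 ^ s)), Pt a b c d x y := by
  refine ⟨(b : ZMod (7 ^ r)) * (a : ZMod (7 ^ r))⁻¹, (c : ZMod (7 ^ s)) * (d : ZMod (7 ^ s))⁻¹,
    ha, hd, ?_, ?_⟩
  · rw [mul_assoc, ZMod.inv_mul_of_unit _ (cop ha), mul_one]
  · rw [mul_assoc, ZMod.inv_mul_of_unit _ (cop hd), mul_one]

private theorem pt_scale {r s : ℕ} {a b c d k A B C D : ℤ} {x : ZMod (7 ^ r)} {y : ZMod (7 ^ s)}
    (h : Pt a b c d x y) (hk : ¬ (7 : ℤ) ∣ k) (hA : A = k * a) (hB : B = k * b) (hC : C = k * c)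
    (hD : D = k * d) : Pt A B C D x y := by
  obtain ⟨h1, h2, h3, h4⟩ := h
  subst hA hB hC hD
  refine ⟨ndm hk h1, ndm hk h2, ?_, ?_⟩
  · push_cast
    rw [h3]
    ring
  · push_cast
    rw [h4]
    ring

private theorem pt_mul {r s : ℕ} {a b c d : ℤ} {x : ZMod (7 ^ r)} {y : ZMod (7 ^ s)}
    (h : Pt a b c d x y) {α β γ δ : ℤ} (hα : ¬ (7 : ℤ) ∣ α) (hδ : ¬ (7 : ℤ) ∣ δ) :
    Pt (a * α + 7 * b * γ) (a * β + b * δ) (c * α + d * γ) (7 * c * β + d * δ)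
      (((β : ZMod (7 ^ r)) + (δ : ZMod (7 ^ r)) * x) *
        ((α : ZMod (7 ^ r)) + 7 * (γ : ZMod (7 ^ r)) * x)⁻¹)
      (((γ : ZMod (7 ^ s)) + (α : ZMod (7 ^ s)) * y) *
        ((δ : ZMod (7 ^ s)) + 7 * (β : ZMod (7 ^ s)) * y)⁻¹) := by
  obtain ⟨h1, h2, h3, h4⟩ := h
  have u1 := ZMod.inv_mul_of_unit _ (den (r := r) (a := α) (c := γ) x hα)
  have u2 := ZMod.inv_mul_of_unit _ (den (r := s) (a := δ) (c := β) y hδ)
  refine ⟨?_, ?_, ?_, ?_⟩
  · intro h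
    exact ndm h1 hα ((dvd_add_left (⟨b * γ, by ring⟩ : (7 : ℤ) ∣ 7 * b * γ)).1 h)
  · intro h
    exact ndm h2 hδ ((dvd_add_right (⟨c * β, by ring⟩ : (7 : ℤ) ∣ 7 * c * β)).1 h)
  · push_cast
    rw [h3]
    linear_combination (-((a : ZMod (7 ^ r)) * ((β : ZMod (7 ^ r)) + δ * x))) * u1
  · push_cast
    rw [h4]
    linear_combination (-((d : ZMod (7 ^ s)) * ((γ : ZMod (7 ^ s)) + α * y))) * u2

private theorem pt_left {r s : ℕ} {a b c d : ℤ} {x : ZMod (7 ^ r)} {y : ZMod (7 ^ s)}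
    (h : Pt a b c d x y) {α β γ δ A B C D : ℤ} (hα : ¬ (7 : ℤ) ∣ α) (hδ : ¬ (7 : ℤ) ∣ δ)
    (hA : A = α * a + 7 ^ r * β * (7 * c)) (hB : B = α * b + 7 ^ r * β * d)
    (hC : C = 7 ^ s * γ * a + δ * c) (hD : D = 7 ^ (s + 1) * γ * b + δ * d) : Pt A B C D x y := by
  obtain ⟨h1, h2, h3, h4⟩ := h
  subst hA hB hC hD
  have z1 : ((7 : ℤ) ^ r : ZMod (7 ^ r)) = 0 := by
    have := ZMod.natCast_self (7 ^ r)
    push_cast at this ⊢
    exact this
  have z2 : ((7 : ℤ) ^ s : ZMod (7 ^ s)) = 0 := by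
    have := ZMod.natCast_self (7 ^ s)
    push_cast at this ⊢
    exact this
  refine ⟨?_, ?_, ?_, ?_⟩
  · intro h
    exact ndm hα h1 ((dvd_add_left
      (⟨7 ^ r * β * c, by ring⟩ : (7 : ℤ) ∣ 7 ^ r * β * (7 * c))).1 h)
  · intro h
    exact ndm hδ h2 ((dvd_add_right
      (⟨7 ^ s * γ * b, by ring⟩ : (7 : ℤ) ∣ 7 ^ (s + 1) * γ * b)).1 h)
  · push_cast at z1 ⊢
    rw [z1, h3]
    ring
  · push_cast at z2 ⊢
    rw [pow_succ, z2, h4]
    ring

/-! ### the function -/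

private noncomputable def PX (r : ℕ) (a b : ℤ) : ZMod (7 ^ r) :=
  ((b : ℤ) : ZMod (7 ^ r)) * ((a : ℤ) : ZMod (7 ^ r))⁻¹

private theorem px_eq {r : ℕ} {a b A B : ℤ} {x : ZMod (7 ^ r)} (hA : A = a) (hB : B = b)
    (ha : ¬ (7 : ℤ) ∣ a) (h : (b : ZMod (7 ^ r)) = x * a) : PX r A B = x := by
  subst hA hB
  unfold PX
  rw [h, mul_assoc, ZMod.mul_inv_of_unit _ (cop ha), mul_one]

section

variable {R : Type} [AddCommGroup R] {r s : ℕ} (F : Fin 4 → ZMod (7 ^ r) → ZMod (7 ^ s) → R)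

private noncomputable def W (a b c d : ℤ) : R :=
  if c % 7 = 0 then F 0 (PX r a b) (PX s d (c / 7))
  else if (c - 3 * d) % 7 = 0 then F 1 (PX r (a - 3 * b) b) (PX s d ((c - 3 * d) / 7))
  else -kK F (PX r (a + 3 * b) (-a - 2 * b)) (PX s (-c - 2 * d) ((c + 3 * d) / 7))

private noncomputable def V (a b c d : ℤ) : R :=
  if c % 7 = 0 ∨ (c - 3 * d) % 7 = 0 ∨ (c + 3 * d) % 7 = 0 then W F a b c d
  else if (c - 2 * d) % 7 = 0 then
    F 1 (PX r (2 * a + 3 * b) (-a - b)) (PX s (-c - d) ((2 * c + 3 * d) / 7)) -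
      F 2 (PX r (2 * a + 3 * b) (-a - b)) (PX s (-c - d) ((2 * c + 3 * d) / 7))
  else if (c + 2 * d) % 7 = 0 then
    F 2 (PX r (3 * a + 6 * b) (-2 * a - 3 * b)) (PX s (-2 * c - 3 * d) ((3 * c + 6 * d) / 7)) -
      F 3 (PX r (3 * a + 6 * b) (-2 * a - 3 * b)) (PX s (-2 * c - 3 * d) ((3 * c + 6 * d) / 7))
  else -W F (3 * b) (-a) (3 * d) (-c)

/-- `v` is the value of a matrix in one of the three classes `0`, `3`, `4`. -/
private def Val (a b c d : ℤ) (v : R) : Prop :=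
  (∃ (c' : ℤ) (x : ZMod (7 ^ r)) (y : ZMod (7 ^ s)), c = 7 * c' ∧ Pt a b c' d x y ∧ v = F 0 x y) ∨
  (∃ (c' : ℤ) (x : ZMod (7 ^ r)) (y : ZMod (7 ^ s)), c = 7 * c' + 3 * d ∧
    Pt (a - 3 * b) b c' d x y ∧ v = F 1 x y) ∨
  (∃ (c' : ℤ) (x : ZMod (7 ^ r)) (y : ZMod (7 ^ s)), c + 3 * d = 7 * c' ∧
    Pt (a + 3 * b) (-a - 2 * b) c' (-c - 2 * d) x y ∧ v = -kK F x y)

/-- `v` is the value of a matrix in the class `2`. -/
private def Val2 (a b c d : ℤ) (v : R) : Prop :=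
  ∃ (c' : ℤ) (x : ZMod (7 ^ r)) (y : ZMod (7 ^ s)), 2 * c + 3 * d = 7 * c' ∧
    Pt (2 * a + 3 * b) (-a - b) c' (-c - d) x y ∧ v = F 1 x y - F 2 x y

/-- `v` is the value of a matrix in the class `5`. -/
private def Val5 (a b c d : ℤ) (v : R) : Prop :=
  ∃ (c' : ℤ) (x : ZMod (7 ^ r)) (y : ZMod (7 ^ s)), 3 * c + 6 * d = 7 * c' ∧
    Pt (3 * a + 6 * b) (-2 * a - 3 * b) c' (-2 * c - 3 * d) x y ∧ v = F 2 x y - F 3 x y

variable {F}

private theorem val_W {a b c d : ℤ} {v : R} (h : Val F a b c d v) : W F a b c d = v := by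
  unfold W
  rcases h with ⟨c', x, y, e, ⟨h1, h2, h3, h4⟩, rfl⟩ | ⟨c', x, y, e, ⟨h1, h2, h3, h4⟩, rfl⟩ |
    ⟨c', x, y, e, ⟨h1, h2, h3, h4⟩, rfl⟩
  · rw [if_pos (by omega), px_eq rfl rfl h1 h3, px_eq rfl (by omega) h2 h4]
  · rw [if_neg (by omega), if_pos (by omega), px_eq rfl rfl h1 h3, px_eq rfl (by omega) h2 h4]
  · rw [if_neg (by omega), if_neg (by omega), px_eq rfl rfl h1 h3, px_eq rfl (by omega) h2 h4]

private theorem val_V {a b c d : ℤ} {v : R} (h : Val F a b c d v) : V F a b c d = v := by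
  have h0 := val_W h
  unfold V
  rcases h with ⟨c', x, y, e, ⟨h1, h2, h3, h4⟩, -⟩ | ⟨c', x, y, e, ⟨h1, h2, h3, h4⟩, -⟩ |
    ⟨c', x, y, e, ⟨h1, h2, h3, h4⟩, -⟩
  · rw [if_pos (by omega), h0]
  · rw [if_pos (by omega), h0]
  · rw [if_pos (by omega), h0]

private theorem val_V2 {a b c d : ℤ} {v : R} (h : Val2 F a b c d v) : V F a b c d = v := by
  unfold V
  obtain ⟨c', x, y, e, ⟨h1, h2, h3, h4⟩, rfl⟩ := h
  rw [if_neg (by omega), if_pos (by omega), px_eq rfl rfl h1 h3, px_eq rfl (by omega) h2 h4]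

private theorem val_V5 {a b c d : ℤ} {v : R} (h : Val5 F a b c d v) : V F a b c d = v := by
  unfold V
  obtain ⟨c', x, y, e, ⟨h1, h2, h3, h4⟩, rfl⟩ := h
  rw [if_neg (by omega), if_neg (by omega), if_pos (by omega), px_eq rfl rfl h1 h3,
    px_eq rfl (by omega) h2 h4]

private theorem val_VS {a b c d : ℤ} {v : R} (h : Val F (3 * b) (-a) (3 * d) (-c) v) :
    V F a b c d = -v := by
  have h0 := val_W h
  unfold V
  rcases h with ⟨c', x, y, e, ⟨h1, h2, h3, h4⟩, -⟩ | ⟨c', x, y, e, ⟨h1, h2, h3, h4⟩, -⟩ |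
    ⟨c', x, y, e, ⟨h1, h2, h3, h4⟩, -⟩
  · rw [if_neg (by omega), if_neg (by omega), if_neg (by omega), h0]
  · rw [if_neg (by omega), if_neg (by omega), if_neg (by omega), h0]
  · rw [if_neg (by omega), if_neg (by omega), if_neg (by omega), h0]

private theorem val_scale {a b c d k A B C D : ℤ} {v : R} (h : Val F a b c d v)
    (hk : ¬ (7 : ℤ) ∣ k) (hA : A = k * a) (hB : B = k * b) (hC : C = k * c) (hD : D = k * d) :
    Val F A B C D v := by
  subst hA hB hC hD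
  rcases h with ⟨c', x, y, e, hp, rfl⟩ | ⟨c', x, y, e, hp, rfl⟩ | ⟨c', x, y, e, hp, rfl⟩
  · exact Or.inl ⟨k * c', x, y, by rw [e]; ring, pt_scale hp hk rfl rfl rfl rfl, rfl⟩
  · exact Or.inr (Or.inl ⟨k * c', x, y, by rw [e]; ring,
      pt_scale hp hk (by ring) rfl rfl rfl, rfl⟩)
  · exact Or.inr (Or.inr ⟨k * c', x, y, by linear_combination k * e,
      pt_scale hp hk (by ring) (by ring) rfl (by ring), rfl⟩)

private theorem val_scale2 {a b c d k A B C D : ℤ} {v : R} (h : Val2 F a b c d v)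
    (hk : ¬ (7 : ℤ) ∣ k) (hA : A = k * a) (hB : B = k * b) (hC : C = k * c) (hD : D = k * d) :
    Val2 F A B C D v := by
  subst hA hB hC hD
  obtain ⟨c', x, y, e, hp, rfl⟩ := h
  exact ⟨k * c', x, y, by linear_combination k * e,
      pt_scale hp hk (by ring) (by ring) rfl (by ring), rfl⟩

private theorem val_scale5 {a b c d k A B C D : ℤ} {v : R} (h : Val5 F a b c d v)
    (hk : ¬ (7 : ℤ) ∣ k) (hA : A = k * a) (hB : B = k * b) (hC : C = k * c) (hD : D = k * d) :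
    Val5 F A B C D v := by
  subst hA hB hC hD
  obtain ⟨c', x, y, e, hp, rfl⟩ := h
  exact ⟨k * c', x, y, by linear_combination k * e,
      pt_scale hp hk (by ring) (by ring) rfl (by ring), rfl⟩

private theorem val_left {a b c d α β γ δ A B C D : ℤ} {v : R} (h : Val F a b c d v)
    (hα : ¬ (7 : ℤ) ∣ α) (hδ : ¬ (7 : ℤ) ∣ δ)
    (hA : A = α * a + 7 ^ r * β * c) (hB : B = α * b + 7 ^ r * β * d)
    (hC : C = 7 ^ (s + 1) * γ * a + δ * c) (hD : D = 7 ^ (s + 1) * γ * b + δ * d) :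
    Val F A B C D v := by
  subst hA hB hC hD
  rcases h with ⟨c', x, y, e, hp, rfl⟩ | ⟨c', x, y, e, hp, rfl⟩ | ⟨c', x, y, e, hp, rfl⟩
  · refine Or.inl ⟨7 ^ s * γ * a + δ * c', x, y, by rw [e]; ring, ?_, rfl⟩
    exact pt_left hp hα hδ (by rw [e]) rfl rfl rfl
  · refine Or.inr (Or.inl ⟨7 ^ s * γ * (a - 3 * b) + δ * c', x, y, by rw [e]; ring, ?_, rfl⟩)
    exact pt_left hp hα hδ (by rw [e]; ring) rfl rfl rfl
  · refine Or.inr (Or.inr ⟨7 ^ s * γ * (a + 3 * b) + δ * c', x, y,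
      by linear_combination δ * e, ?_, rfl⟩)
    exact pt_left (α := α) (β := β) (γ := γ) (δ := δ) hp hα hδ
      (by linear_combination (7 ^ r * β) * e) (by ring) rfl (by ring)

private theorem val_left2 {a b c d α β γ δ A B C D : ℤ} {v : R} (h : Val2 F a b c d v)
    (hα : ¬ (7 : ℤ) ∣ α) (hδ : ¬ (7 : ℤ) ∣ δ)
    (hA : A = α * a + 7 ^ r * β * c) (hB : B = α * b + 7 ^ r * β * d)
    (hC : C = 7 ^ (s + 1) * γ * a + δ * c) (hD : D = 7 ^ (s + 1) * γ * b + δ * d) :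
    Val2 F A B C D v := by
  subst hA hB hC hD
  obtain ⟨c', x, y, e, hp, rfl⟩ := h
  refine ⟨7 ^ s * γ * (2 * a + 3 * b) + δ * c', x, y, by linear_combination δ * e, ?_, rfl⟩
  exact pt_left (α := α) (β := β) (γ := γ) (δ := δ) hp hα hδ
      (by linear_combination (7 ^ r * β) * e) (by ring) rfl (by ring)

private theorem val_left5 {a b c d α β γ δ A B C D : ℤ} {v : R} (h : Val5 F a b c d v)
    (hα : ¬ (7 : ℤ) ∣ α) (hδ : ¬ (7 : ℤ) ∣ δ)
    (hA : A = α * a + 7 ^ r * β * c) (hB : B = α * b + 7 ^ r * β * d)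
    (hC : C = 7 ^ (s + 1) * γ * a + δ * c) (hD : D = 7 ^ (s + 1) * γ * b + δ * d) :
    Val5 F A B C D v := by
  subst hA hB hC hD
  obtain ⟨c', x, y, e, hp, rfl⟩ := h
  refine ⟨7 ^ s * γ * (3 * a + 6 * b) + δ * c', x, y, by linear_combination δ * e, ?_, rfl⟩
  exact pt_left (α := α) (β := β) (γ := γ) (δ := δ) hp hα hδ
      (by linear_combination (7 ^ r * β) * e) (by ring) rfl (by ring)

private theorem cls1 : ∀ c d : ZMod 7, (c = 0 ∧ d = 0) ∨ c = 0 ∨ c - 3 * d = 0 ∨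
    c + 3 * d = 0 ∨ d = 0 ∨ c + d = 0 ∨ c - d = 0 ∨ c - 2 * d = 0 ∨ c + 2 * d = 0 := by
  decide

private theorem e7d : ∀ z : ℤ, ((z : ℤ) : ZMod 7) = 0 → (7 : ℤ) ∣ z := fun z hz =>
  (ZMod.intCast_zmod_eq_zero_iff_dvd z 7).1 hz

private theorem cl (c d : ℤ) : ((7 : ℤ) ∣ c ∧ (7 : ℤ) ∣ d) ∨ (7 : ℤ) ∣ c ∨ (7 : ℤ) ∣ c - 3 * d ∨
    (7 : ℤ) ∣ c + 3 * d ∨ (7 : ℤ) ∣ d ∨ (7 : ℤ) ∣ c + d ∨ (7 : ℤ) ∣ c - d ∨
    (7 : ℤ) ∣ c - 2 * d ∨ (7 : ℤ) ∣ c + 2 * d := by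
  rcases cls1 c d with ⟨p, q⟩ | p | p | p | p | p | p | p | p
  · exact Or.inl ⟨e7d _ p, e7d _ q⟩
  · exact Or.inr (Or.inl (e7d _ p))
  · exact Or.inr (Or.inr (Or.inl (e7d _ (by push_cast; exact p))))
  · exact Or.inr (Or.inr (Or.inr (Or.inl (e7d _ (by push_cast; exact p)))))
  · exact Or.inr (Or.inr (Or.inr (Or.inr (Or.inl (e7d _ p)))))
  · exact Or.inr (Or.inr (Or.inr (Or.inr (Or.inr (Or.inl (e7d _ (by push_cast; exact p)))))))
  · exact Or.inr (Or.inr (Or.inr (Or.inr (Or.inr (Or.inr (Or.inl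
      (e7d _ (by push_cast; exact p))))))))
  · exact Or.inr (Or.inr (Or.inr (Or.inr (Or.inr (Or.inr (Or.inr (Or.inl
      (e7d _ (by push_cast; exact p)))))))))
  · exact Or.inr (Or.inr (Or.inr (Or.inr (Or.inr (Or.inr (Or.inr (Or.inr
      (e7d _ (by push_cast; exact p)))))))))

private theorem fwd {a b c d : ℤ} (h : ¬ (7 : ℤ) ∣ a * d - b * c)
    (hc : (7 : ℤ) ∣ c ∨ (7 : ℤ) ∣ c - 3 * d ∨ (7 : ℤ) ∣ c + 3 * d) : ∃ v, Val F a b c d v := by
  rcases hc with ⟨c', hc'⟩ | ⟨c', hc'⟩ | ⟨c', hc'⟩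
  · have hr := res (a := a) (b := b) (c := c') (d := d) (by
      have : a * d - 7 * (b * c') = a * d - b * c := by rw [hc']; ring
      rwa [this])
    obtain ⟨x, y, hp⟩ := pt_mk r s (b := b) (c := c') hr.1 hr.2
    exact ⟨_, Or.inl ⟨c', x, y, hc', hp, rfl⟩⟩
  · have hr := res (a := a - 3 * b) (b := b) (c := c') (d := d) (by
      have : (a - 3 * b) * d - 7 * (b * c') = a * d - b * c := by linear_combination b * hc'
      rwa [this])
    obtain ⟨x, y, hp⟩ := pt_mk r s (b := b) (c := c') hr.1 hr.2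
    exact ⟨_, Or.inr (Or.inl ⟨c', x, y, by omega, hp, rfl⟩)⟩
  · have hr := res (a := a + 3 * b) (b := -a - 2 * b) (c := c') (d := -c - 2 * d) (by
      have : (a + 3 * b) * (-c - 2 * d) - 7 * ((-a - 2 * b) * c') =
          a * d - b * c := by linear_combination (-a - 2 * b) * hc'
      rwa [this])
    obtain ⟨x, y, hp⟩ := pt_mk r s (b := -a - 2 * b) (c := c') hr.1 hr.2
    exact ⟨_, Or.inr (Or.inr ⟨c', x, y, hc', hp, rfl⟩)⟩

private theorem fwd2 {a b c d : ℤ} (h : ¬ (7 : ℤ) ∣ a * d - b * c)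
    (hc : (7 : ℤ) ∣ c - 2 * d) : ∃ v, Val2 F a b c d v := by
  obtain ⟨c', hc'⟩ := hc
  have hr := res (a := 2 * a + 3 * b) (b := -a - b) (c := 2 * c' + d) (d := -c - d) (by
      have : (2 * a + 3 * b) * (-c - d) - 7 * ((-a - b) * (2 * c' + d)) =
          a * d - b * c := by linear_combination (2 * (-a - b)) * hc'
      rwa [this])
  obtain ⟨x, y, hp⟩ := pt_mk r s (b := -a - b) (c := 2 * c' + d) hr.1 hr.2
  exact ⟨_, 2 * c' + d, x, y, by omega, hp, rfl⟩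

private theorem fwd5 {a b c d : ℤ} (h : ¬ (7 : ℤ) ∣ a * d - b * c)
    (hc : (7 : ℤ) ∣ c + 2 * d) : ∃ v, Val5 F a b c d v := by
  obtain ⟨c', hc'⟩ := hc
  have hr := res (a := 3 * a + 6 * b) (b := -2 * a - 3 * b) (c := 3 * c')
    (d := -2 * c - 3 * d) (by
      have : (3 * a + 6 * b) * (-2 * c - 3 * d) - 7 * ((-2 * a - 3 * b) * (3 * c')) =
          3 * (a * d - b * c) := by linear_combination (3 * (-2 * a - 3 * b)) * hc'
      rw [this]
      exact ndm (by decide) h)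
  obtain ⟨x, y, hp⟩ := pt_mk r s (b := -2 * a - 3 * b) (c := 3 * c') hr.1 hr.2
  exact ⟨_, 3 * c', x, y, by omega, hp, rfl⟩

private theorem cls {a b c d : ℤ} (h : ¬ (7 : ℤ) ∣ a * d - b * c) :
    (∃ v, Val F a b c d v) ∨ (∃ v, Val F (3 * b) (-a) (3 * d) (-c) v) ∨
      (∃ v, Val2 F a b c d v) ∨ (∃ v, Val5 F a b c d v) := by
  have h2 : ¬ (7 : ℤ) ∣ 3 * b * -c - -a * (3 * d) := by
    have : 3 * b * -c - -a * (3 * d) = 3 * (a * d - b * c) := by ring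
    rw [this]
    exact ndm (by decide) h
  rcases cl c d with ⟨⟨c', hc⟩, ⟨d', hd⟩⟩ | p | p | p | p | p | p | p | p
  · exact absurd ⟨a * d' - b * c', by rw [hc, hd]; ring⟩ h
  · exact Or.inl (fwd h (Or.inl p))
  · exact Or.inl (fwd h (Or.inr (Or.inl p)))
  · exact Or.inl (fwd h (Or.inr (Or.inr p)))
  · exact Or.inr (Or.inl (fwd h2 (Or.inl (by omega))))
  · exact Or.inr (Or.inl (fwd h2 (Or.inr (Or.inl (by omega)))))
  · exact Or.inr (Or.inl (fwd h2 (Or.inr (Or.inr (by omega)))))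
  · exact Or.inr (Or.inr (Or.inl (fwd2 h p)))
  · exact Or.inr (Or.inr (Or.inr (fwd5 h p)))

private theorem V_scale {a b c d : ℤ} (h : ¬ (7 : ℤ) ∣ a * d - b * c) (k : ℤ)
    (hk : ¬ (7 : ℤ) ∣ k) {A B C D : ℤ} (hA : A = k * a) (hB : B = k * b) (hC : C = k * c)
    (hD : D = k * d) : V F A B C D = V F a b c d := by
  rcases cls (F := F) h with ⟨v, hv⟩ | ⟨v, hv⟩ | ⟨v, hv⟩ | ⟨v, hv⟩
  · rw [val_V hv, val_V (val_scale hv hk hA hB hC hD)]
  · rw [val_VS hv]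
    exact val_VS (val_scale hv hk (by rw [hB]; ring) (by rw [hA]; ring) (by rw [hD]; ring)
      (by rw [hC]; ring))
  · rw [val_V2 hv, val_V2 (val_scale2 hv hk hA hB hC hD)]
  · rw [val_V5 hv, val_V5 (val_scale5 hv hk hA hB hC hD)]

private theorem V_S (hR : RelK F) {a b c d : ℤ} (h : ¬ (7 : ℤ) ∣ a * d - b * c) {A B C D : ℤ}
    (hA : A = 3 * b) (hB : B = -a) (hC : C = 3 * d) (hD : D = -c) :
    V F A B C D = -V F a b c d := by
  subst hA hB hC hD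
  rcases cls (F := F) h with ⟨v, hv⟩ | ⟨v, hv⟩ | ⟨v, hv⟩ | ⟨v, hv⟩
  · rw [val_V hv]
    exact val_VS (val_scale (k := -3) hv (by decide) (by ring) (by ring) (by ring) (by ring))
  · rw [val_VS hv, val_V hv, neg_neg]
  · rw [val_V2 hv]
    obtain ⟨c', x, y, e, hp, rfl⟩ := hv
    have m := pt_mul hp (α := 9) (β := -4) (γ := 3) (δ := -9) (by decide) (by decide)
    have h2 := val_V2 (F := F) (a := 3 * b) (b := -a) (c := 3 * d) (d := -c)
      ⟨9 * c' - 3 * c - 3 * d, _, _, by linear_combination 9 * e,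
        pt_scale (k := 1) m (by decide) (by ring) (by ring) (by ring)
          (by linear_combination (-4) * e), rfl⟩
    rw [h2]
    have hr := hR.2.1 x y
    unfold tr7 at hr
    rw [← sub_eq_zero, ← neg_eq_zero, ← hr]
    abel
  · rw [val_V5 hv]
    obtain ⟨c', x, y, e, hp, rfl⟩ := hv
    have m := pt_mul hp (α := 12) (β := -7) (γ := 3) (δ := -12) (by decide) (by decide)
    have h2 := val_V5 (F := F) (a := 3 * b) (b := -a) (c := 3 * d) (d := -c)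
      ⟨12 * c' - 6 * c - 9 * d, _, _, by linear_combination 12 * e,
        pt_scale (k := 1) m (by decide) (by ring) (by ring) (by ring)
          (by linear_combination (-7) * e), rfl⟩
    rw [h2]
    have hr := hR.2.2.1 x y
    unfold tr7 at hr
    rw [← sub_eq_zero, ← neg_eq_zero, ← hr]
    abel

private theorem V_left {a b c d α β γ δ A B C D : ℤ} (h : ¬ (7 : ℤ) ∣ a * d - b * c)
    (hα : ¬ (7 : ℤ) ∣ α) (hδ : ¬ (7 : ℤ) ∣ δ) (hβ : (7 : ℤ) ^ r ∣ β) (hγ : (7 : ℤ) ^ (s + 1) ∣ γ)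
    (hA : A = α * a + β * c) (hB : B = α * b + β * d)
    (hC : C = γ * a + δ * c) (hD : D = γ * b + δ * d) :
    V F A B C D = V F a b c d := by
  obtain ⟨β', rfl⟩ := hβ
  obtain ⟨γ', rfl⟩ := hγ
  rcases cls (F := F) h with ⟨v, hv⟩ | ⟨v, hv⟩ | ⟨v, hv⟩ | ⟨v, hv⟩
  · rw [val_V hv, val_V (val_left hv hα hδ hA hB hC hD)]
  · rw [val_VS hv]
    exact val_VS (val_left (β := β') (γ := γ') hv hα hδ (by rw [hB]; ring) (by rw [hA]; ring)
      (by rw [hD]; ring) (by rw [hC]; ring))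
  · rw [val_V2 hv, val_V2 (val_left2 hv hα hδ hA hB hC hD)]
  · rw [val_V5 hv, val_V5 (val_left5 hv hα hδ hA hB hC hD)]

/-! ### values -/

private theorem ev0 {a b c d : ℤ} {x : ZMod (7 ^ r)} {y : ZMod (7 ^ s)} (hp : Pt a b c d x y)
    {A B C D : ℤ} (hA : A = a) (hB : B = b) (hC : C = 7 * c) (hD : D = d) :
    V F A B C D = F 0 x y := by
  subst hA hB hC hD
  exact val_V (Or.inl ⟨c, x, y, rfl, hp, rfl⟩)

private theorem ev3 {a b c d : ℤ} {x : ZMod (7 ^ r)} {y : ZMod (7 ^ s)} (hp : Pt a b c d x y)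
    {A B C D : ℤ} (hA : A = a + 3 * b) (hB : B = b) (hC : C = 7 * c + 3 * d) (hD : D = d) :
    V F A B C D = F 1 x y := by
  subst hA hB hC hD
  exact val_V (Or.inr (Or.inl ⟨c, x, y, rfl,
    pt_scale (k := 1) hp (by decide) (by ring) (by ring) (by ring) (by ring), rfl⟩))

private theorem ev4 {a b c d : ℤ} {x : ZMod (7 ^ r)} {y : ZMod (7 ^ s)} (hp : Pt a b c d x y)
    {A B C D : ℤ} (hA : A = 2 * a + 3 * b) (hB : B = -a - b) (hC : C = 2 * (7 * c) + 3 * d)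
    (hD : D = -(7 * c) - d) :
    V F A B C D = -kK F x y := by
  subst hA hB hC hD
  exact val_V (Or.inr (Or.inr ⟨-c, x, y, by ring,
    pt_scale (k := -1) hp (by decide) (by ring) (by ring) (by ring) (by ring), rfl⟩))

private theorem ev2 {a b c d : ℤ} {x : ZMod (7 ^ r)} {y : ZMod (7 ^ s)} (hp : Pt a b c d x y)
    {A B C D : ℤ} (hA : A = a + 3 * b) (hB : B = -a - 2 * b) (hC : C = 7 * c + 3 * d)
    (hD : D = -(7 * c) - 2 * d) :
    V F A B C D = F 1 x y - F 2 x y := by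
  subst hA hB hC hD
  exact val_V2 ⟨-c, x, y, by ring,
    pt_scale (k := -1) hp (by decide) (by ring) (by ring) (by ring) (by ring), rfl⟩

private theorem ev5 {a b c d : ℤ} {x : ZMod (7 ^ r)} {y : ZMod (7 ^ s)} (hp : Pt a b c d x y)
    {A B C D : ℤ} (hA : A = 3 * a + 6 * b) (hB : B = -2 * a - 3 * b)
    (hC : C = 3 * (7 * c) + 6 * d) (hD : D = -2 * (7 * c) - 3 * d) :
    V F A B C D = F 2 x y - F 3 x y := by
  subst hA hB hC hD
  exact val_V5 ⟨-3 * c, x, y, by ring,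
    pt_scale (k := -3) hp (by decide) (by ring) (by ring) (by ring) (by ring), rfl⟩

/-! ### the hexagon relation -/

private def Hx (F : Fin 4 → ZMod (7 ^ r) → ZMod (7 ^ s) → R) (a b c d : ℤ) : Prop :=
  V F a b c d + V F (3 * a + 3 * b) (-a) (3 * c + 3 * d) (-c)
    + V F (2 * a + 3 * b) (-a - b) (2 * c + 3 * d) (-c - d)
    + V F (3 * a + 6 * b) (-2 * a - 3 * b) (3 * c + 6 * d) (-2 * c - 3 * d)
    + V F (a + 3 * b) (-a - 2 * b) (c + 3 * d) (-c - 2 * d)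
    + V F (3 * b) (-a - 3 * b) (3 * d) (-c - 3 * d) = 0

private theorem ndet {a b c d : ℤ} (h : ¬ (7 : ℤ) ∣ a * d - b * c) (k : ℤ)
    (hk : ¬ (7 : ℤ) ∣ k) {m : ℤ} (hm : m = k * (a * d - b * c)) : ¬ (7 : ℤ) ∣ m := by
  rw [hm]
  exact ndm hk h

private theorem hx_rot {a b c d : ℤ} (h : ¬ (7 : ℤ) ∣ a * d - b * c)
    (hs : Hx F (3 * a + 3 * b) (-a) (3 * c + 3 * d) (-c)) : Hx F a b c d := by
  unfold Hx at hs ⊢
  have t1 : V F (3 * (3 * a + 3 * b) + 3 * -a) (-(3 * a + 3 * b)) (3 * (3 * c + 3 * d) + 3 * -c)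
      (-(3 * c + 3 * d)) = V F (2 * a + 3 * b) (-a - b) (2 * c + 3 * d) (-c - d) :=
    V_scale (ndet h 1 (by decide) (by ring)) 3 (by decide) (by ring) (by ring) (by ring) (by ring)
  have t3 : V F (3 * (3 * a + 3 * b) + 6 * -a) (-2 * (3 * a + 3 * b) - 3 * -a)
      (3 * (3 * c + 3 * d) + 6 * -c) (-2 * (3 * c + 3 * d) - 3 * -c) =
      V F (a + 3 * b) (-a - 2 * b) (c + 3 * d) (-c - 2 * d) :=
    V_scale (ndet h 1 (by decide) (by ring)) 3 (by decide) (by ring) (by ring) (by ring) (by ring)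
  have t5 : V F (3 * -a) (-(3 * a + 3 * b) - 3 * -a) (3 * -c) (-(3 * c + 3 * d) - 3 * -c) =
      V F a b c d :=
    V_scale h (-3) (by decide) (by ring) (by ring) (by ring) (by ring)
  have e1 : 2 * (3 * a + 3 * b) + 3 * -a = 3 * a + 6 * b := by ring
  have e2 : -(3 * a + 3 * b) - -a = -2 * a - 3 * b := by ring
  have e3 : 2 * (3 * c + 3 * d) + 3 * -c = 3 * c + 6 * d := by ring
  have e4 : -(3 * c + 3 * d) - -c = -2 * c - 3 * d := by ring
  have e5 : 3 * a + 3 * b + 3 * -a = 3 * b := by ring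
  have e6 : -(3 * a + 3 * b) - 2 * -a = -a - 3 * b := by ring
  have e7 : 3 * c + 3 * d + 3 * -c = 3 * d := by ring
  have e8 : -(3 * c + 3 * d) - 2 * -c = -c - 3 * d := by ring
  rw [t1, t3, t5, e1, e2, e3, e4, e5, e6, e7, e8] at hs
  rw [← hs]
  abel

private theorem pt_det {a b c d : ℤ} {x : ZMod (7 ^ r)} {y : ZMod (7 ^ s)}
    (hp : Pt a b c d x y) : ¬ (7 : ℤ) ∣ a * d - b * (7 * c) := by
  intro h
  exact ndm hp.1 hp.2.1 ((dvd_sub_left (⟨b * c, by ring⟩ : (7 : ℤ) ∣ b * (7 * c))).1 h)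

private theorem ev1 (hR : RelK F) {a b c d : ℤ} {x : ZMod (7 ^ r)} {y : ZMod (7 ^ s)}
    (hp : Pt a b c d x y) {A B C D : ℤ} (hA : A = a + b) (hB : 3 * B = 2 * a + 3 * b)
    (hC : C = 7 * c + d) (hD : 3 * D = 2 * (7 * c) + 3 * d) :
    V F A B C D = kK F x y := by
  have hN : ¬ (7 : ℤ) ∣ A * D - B * C := by
    intro h
    refine pt_det hp ?_
    have e : a * d - b * (7 * c) = 3 * (A * D - B * C) := by
      rw [hA, hC]
      linear_combination (-(a + b)) * hD + (7 * c + d) * hB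
    rw [e]
    exact h.mul_left 3
  have h1 := V_S hR (F := F) hN (A := 3 * B) (B := -A) (C := 3 * D) (D := -C) rfl rfl rfl rfl
  rw [ev4 hp hB (by rw [hA]; ring) hD (by rw [hC]; ring), neg_inj] at h1
  exact h1.symm

private theorem hx0 (hR : RelK F) {a b c d : ℤ} {x : ZMod (7 ^ r)} {y : ZMod (7 ^ s)}
    (hp : Pt a b c d x y) : Hx F a b (7 * c) d := by
  have hd := pt_det hp
  have m1 := pt_mul hp (α := 1) (β := 1) (γ := 0) (δ := 1) (by decide) (by decide)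
  unfold Hx
  rw [ev0 hp rfl rfl rfl rfl,
    V_S hR (F := F) (a := a) (b := a + b) (c := 7 * c) (d := 7 * c + d)
      (A := 3 * a + 3 * b) (B := -a) (C := 3 * (7 * c) + 3 * d) (D := -(7 * c))
      (ndet hd 1 (by decide) (by ring)) (by ring) (by ring) (by ring) (by ring),
    ev0 m1 (by ring) (by ring) (by ring) (by ring),
    ev4 hp rfl rfl rfl rfl, ev5 hp rfl rfl rfl rfl, ev2 hp rfl rfl rfl rfl,
    V_S hR (F := F) (a := a + 3 * b) (b := b) (c := 7 * c + 3 * d) (d := d)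
      (A := 3 * b) (B := -a - 3 * b) (C := 3 * d) (D := -(7 * c) - 3 * d)
      (ndet hd 1 (by decide) (by ring)) (by ring) (by ring) (by ring) (by ring),
    ev3 hp rfl rfl rfl rfl]
  unfold kK tr7
  abel

private theorem hx3 (hR : RelK F) {a b c d : ℤ} {x : ZMod (7 ^ r)} {y : ZMod (7 ^ s)}
    (hp : Pt a b c d x y) : Hx F (a + 3 * b) b (7 * c + 3 * d) d := by
  have m1 := pt_mul hp (α := 6) (β := -1) (γ := 3) (δ := -3) (by decide) (by decide)
  have m2 := pt_mul hp (α := 5) (β := -1) (γ := 3) (δ := -4) (by decide) (by decide)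
  have m3 := pt_mul hp (α := 9) (β := -2) (γ := 6) (δ := -9) (by decide) (by decide)
  have m4 := pt_mul hp (α := 4) (β := -1) (γ := 3) (δ := -5) (by decide) (by decide)
  have m5 := pt_mul hp (α := 3) (β := -1) (γ := 3) (δ := -6) (by decide) (by decide)
  have hR' := hR.1 x y
  unfold Hx
  rw [ev3 hp rfl rfl rfl rfl, ev3 m1 (by ring) (by ring) (by ring) (by ring),
    ev3 m2 (by ring) (by ring) (by ring) (by ring),
    ev3 m3 (by ring) (by ring) (by ring) (by ring),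
    ev3 m4 (by ring) (by ring) (by ring) (by ring),
    ev3 m5 (by ring) (by ring) (by ring) (by ring), ← hR']
  rfl

private theorem hx1 (hR : RelK F) {a b c d : ℤ} {x : ZMod (7 ^ r)} {y : ZMod (7 ^ s)}
    (hp : Pt (3 * a - 3 * b) (-2 * a + 3 * b) (3 * c) (d - 14 * c) x y) :
    Hx F a b (7 * c + d) d := by
  have m1 := pt_mul hp (α := 18) (β := -13) (γ := 3) (δ := -15) (by decide) (by decide)
  have m2 := pt_mul hp (α := 17) (β := -13) (γ := 3) (δ := -16) (by decide) (by decide)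
  have m3 := pt_mul hp (α := 33) (β := -26) (γ := 6) (δ := -33) (by decide) (by decide)
  have m4 := pt_mul hp (α := 16) (β := -13) (γ := 3) (δ := -17) (by decide) (by decide)
  have m5 := pt_mul hp (α := 15) (β := -13) (γ := 3) (δ := -18) (by decide) (by decide)
  have hR' := hR.2.2.2 x y
  unfold Hx
  rw [ev1 hR hp (by ring) (by ring) (by ring) (by ring),
    ev1 hR m1 (by ring) (by ring) (by ring) (by ring),
    ev1 hR m2 (by ring) (by ring) (by ring) (by ring),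
    ev1 hR m3 (by ring) (by ring) (by ring) (by ring),
    ev1 hR m4 (by ring) (by ring) (by ring) (by ring),
    ev1 hR m5 (by ring) (by ring) (by ring) (by ring), ← hR']
  rfl

private theorem hx_all (hR : RelK F) {a b c d : ℤ} (h : ¬ (7 : ℤ) ∣ a * d - b * c) :
    Hx F a b c d := by
  have k0 : ∀ {a b c d : ℤ}, ¬ (7 : ℤ) ∣ a * d - b * c → (7 : ℤ) ∣ c → Hx F a b c d := by
    intro a b c d h hc
    obtain ⟨c', rfl⟩ := hc
    have hr := res (a := a) (b := b) (c := c') (d := d) (ndet h 1 (by decide) (by ring))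
    obtain ⟨x, y, hp⟩ := pt_mk r s (b := b) (c := c') hr.1 hr.2
    exact hx0 hR hp
  have k6 : ∀ {a b c d : ℤ}, ¬ (7 : ℤ) ∣ a * d - b * c → (7 : ℤ) ∣ c + d → Hx F a b c d := by
    intro a b c d h hc
    exact hx_rot h (k0 (ndet h 3 (by decide) (by ring)) (by omega))
  have k2 : ∀ {a b c d : ℤ}, ¬ (7 : ℤ) ∣ a * d - b * c → (7 : ℤ) ∣ c - 2 * d → Hx F a b c d := by
    intro a b c d h hc
    exact hx_rot h (k6 (ndet h 3 (by decide) (by ring)) (by omega))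
  have k5 : ∀ {a b c d : ℤ}, ¬ (7 : ℤ) ∣ a * d - b * c → (7 : ℤ) ∣ c + 2 * d → Hx F a b c d := by
    intro a b c d h hc
    exact hx_rot h (k2 (ndet h 3 (by decide) (by ring)) (by omega))
  have k4 : ∀ {a b c d : ℤ}, ¬ (7 : ℤ) ∣ a * d - b * c → (7 : ℤ) ∣ c + 3 * d → Hx F a b c d := by
    intro a b c d h hc
    exact hx_rot h (k5 (ndet h 3 (by decide) (by ring)) (by omega))
  have k7 : ∀ {a b c d : ℤ}, ¬ (7 : ℤ) ∣ a * d - b * c → (7 : ℤ) ∣ d → Hx F a b c d := by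
    intro a b c d h hc
    exact hx_rot h (k4 (ndet h 3 (by decide) (by ring)) (by omega))
  rcases cl c d with ⟨⟨c', hc⟩, ⟨d', hd⟩⟩ | p | p | p | p | p | p | p | p
  · exact absurd ⟨a * d' - b * c', by rw [hc, hd]; ring⟩ h
  · exact k0 h p
  · obtain ⟨c', hc'⟩ := p
    obtain rfl : c = 7 * c' + 3 * d := by omega
    obtain ⟨a', rfl⟩ : ∃ a', a = a' + 3 * b := ⟨a - 3 * b, by ring⟩
    have hr := res (a := a') (b := b) (c := c') (d := d) (ndet h 1 (by decide) (by ring))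
    obtain ⟨x, y, hp⟩ := pt_mk r s (b := b) (c := c') hr.1 hr.2
    exact hx3 hR hp
  · exact k4 h p
  · exact k7 h p
  · exact k6 h p
  · obtain ⟨c', hc'⟩ := p
    obtain rfl : c = 7 * c' + d := by omega
    have hr := res (a := 3 * a - 3 * b) (b := -2 * a + 3 * b) (c := 3 * c') (d := d - 14 * c')
      (ndet h 3 (by decide) (by ring))
    obtain ⟨x, y, hp⟩ := pt_mk r s (b := -2 * a + 3 * b) (c := 3 * c') hr.1 hr.2
    exact hx1 hR hp
  · exact k2 h p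
  · exact k5 h p

end

private theorem one7 {m : ℤ} (h : m = 1) : ¬ (7 : ℤ) ∣ m := by
  rw [h]
  decide

/-- Module ExA. -/
theorem hExA (_ht : S7Trm) : TExA := by
  intro R _ r s F hR
  refine ⟨V F, ?_, ?_, ?_, ?_, ?_⟩
  · intro a b c d h _
    exact V_scale (one7 h) (-1) (by decide) (by ring) (by ring) (by ring) (by ring)
  · intro a b c d h _
    have h1 := hx_all hR (one7 h)
    unfold Hx at h1
    have t1 : V F (3 * a + 3 * b) (-a) (3 * c + 3 * d) (-c) = -V F a (a + b) c (c + d) :=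
      V_S hR (ndet (one7 h) 1 (by decide) (by ring)) (by ring) (by ring) (by ring) (by ring)
    have t3 : V F (3 * a + 6 * b) (-2 * a - 3 * b) (3 * c + 6 * d) (-2 * c - 3 * d) =
        -V F (2 * a + 3 * b) (a + 2 * b) (2 * c + 3 * d) (c + 2 * d) :=
      V_S hR (ndet (one7 h) 1 (by decide) (by ring)) (by ring) (by ring) (by ring) (by ring)
    have t5 : V F (3 * b) (-a - 3 * b) (3 * d) (-c - 3 * d) = -V F (a + 3 * b) b (c + 3 * d) d :=
      V_S hR (ndet (one7 h) 1 (by decide) (by ring)) (by ring) (by ring) (by ring) (by ring)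
    rw [t1, t3, t5] at h1
    have e1 : -(a + b) = -a - b := by ring
    have e2 : -(c + d) = -c - d := by ring
    have e3 : -(a + 2 * b) = -a - 2 * b := by ring
    have e4 : -(c + 2 * d) = -c - 2 * d := by ring
    rw [e1, e2, e3, e4, ← h1]
    abel
  · intro α β γ δ a b c d hg _ hβ hγ h _
    obtain ⟨γ', hγ'⟩ := hγ
    have hr := res (a := α) (b := β * 7 ^ s) (c := γ') (d := δ) (one7 (by
      rw [← hg, hγ']; ring))
    exact V_left (one7 h) hr.1 hr.2 hβ ⟨γ', hγ'⟩ rfl rfl rfl rfl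
  · intro α β γ δ a b c d hg hβ hγ h
    obtain ⟨γ', hγ'⟩ := hγ
    have hr := res (a := 3 * α) (b := β * 7 ^ s) (c := γ') (d := δ) (one7 (by
      rw [← hg, hγ']; ring))
    have hd : ¬ (7 : ℤ) ∣ 3 * δ := ndm (by decide) hr.2
    have hN : ¬ (7 : ℤ) ∣ a * d - b * (3 * c) := one7 (by linear_combination h)
    have hdet : (3 * α * a + β * (3 * c)) * (3 * γ * b + 3 * δ * d) -
        (3 * α * b + β * d) * (3 * γ * a + 3 * δ * (3 * c)) =
        3 * (a * d - b * (3 * c)) := by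
      linear_combination 3 * (a * d - b * (3 * c)) * hg
    have h1 : V F (3 * α * a + β * (3 * c)) (3 * α * b + β * d) (3 * γ * a + 3 * δ * (3 * c))
        (3 * γ * b + 3 * δ * d) = V F a b (3 * c) d :=
      V_left hN hr.1 hd hβ ⟨3 * γ', by rw [hγ']; ring⟩ rfl rfl rfl rfl
    rw [← h1]
    have hN2 : ¬ (7 : ℤ) ∣ (3 * α * a + β * (3 * c)) * (3 * γ * b + 3 * δ * d) -
        (3 * α * b + β * d) * (3 * γ * a + 3 * δ * (3 * c)) := by
      rw [hdet]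
      exact ndm (by decide) hN
    rw [← V_S hR (F := F) hN2 rfl rfl rfl rfl]
    symm
    refine V_scale ?_ 3 (by decide) (by ring) (by ring) (by ring) (by ring)
    have : (3 * α * b + β * d) * -(γ * a + 3 * δ * c) - -(α * a + β * c) * (3 * (γ * b + δ * d)) =
        1 := by
      linear_combination (a * d - 3 * b * c) * hg + h
    rw [this]
    decide
  · intro x y a b c d h _ hx hy
    have hr := res (a := a) (b := b) (c := c) (d := d) (one7 (by linear_combination h))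
    have hp : Pt a b c d x y := ⟨hr.1, hr.2, hx, hy⟩
    have h3 : V F (a + 3 * b) b (7 * c + 3 * d) d = F 1 x y := ev3 hp rfl rfl rfl rfl
    have h2 : V F (a + 3 * b) (-(a + 2 * b)) (7 * c + 3 * d) (-(7 * c + 2 * d)) =
        F 1 x y - F 2 x y := ev2 hp rfl (by ring) rfl (by ring)
    have h5 : V F (2 * a + 3 * b) (a + 2 * b) (2 * (7 * c) + 3 * d) (7 * c + 2 * d) =
        -(F 2 x y - F 3 x y) := by
      have t := V_S hR (F := F) (a := 2 * a + 3 * b) (b := a + 2 * b)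
        (c := 2 * (7 * c) + 3 * d) (d := 7 * c + 2 * d)
        (A := 3 * a + 6 * b) (B := -2 * a - 3 * b) (C := 3 * (7 * c) + 6 * d)
        (D := -2 * (7 * c) - 3 * d) (ndet (pt_det hp) 1 (by decide) (by ring))
        (by ring) (by ring) (by ring) (by ring)
      rw [ev5 hp rfl rfl rfl rfl] at t
      rw [t, neg_neg]
    refine ⟨ev0 hp rfl rfl rfl rfl, h3, ?_, ?_⟩
    · rw [h3, h2]
      abel
    · rw [h3, h2, h5]
      abel

end Pool.Agent.Helper52.TK7
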